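import Pool.Agent.P.MP_fc15d7_nt.Final

/-! The parity word of an orbit of `n ↦ ⌊3 n / 2⌋ + 1` has superlinear factor complexity. -/

namespace Pool.Agent.Results.MP_fc15d7_nt.Complexity

theorem result (x : ℕ) : Filter.Tendsto
    (fun n : ℕ => (({w : Fin n → ℕ | ∃ i : ℕ, ∀ j : Fin n,
      w j = (fun m : ℕ => 3 * m / 2 + 1)^[i + j] x % 2}.ncard : ℕ) : ℝ) / (n : ℝ))
    Filter.atTop Filter.atTop :=
  Pool.Agent.P.MP_fc15d7_nt.cx_final x

end Pool.Agent.Results.MP_fc15d7_nt.Complexity
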