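import Pool.Agent.P.MP_fc15d7_nt.HP.Two

/-! For all but `X ^ (1 - δ)` starting points `x < X`, the parity word of the orbit of `x` under
`m ↦ ⌊3 m / 2⌋ + 1` is normal up to the time `2 log₂ X`. -/

namespace Pool.Agent.Results.MP_fc15d7_nt.HorizonPower

theorem result (h : ℕ) (w : Fin h → Bool) (η : ℝ) (hη : 0 < η) :
    ∃ δ : ℝ, 0 < δ ∧ ∀ᶠ X : ℕ in Filter.atTop,
      (({x : ℕ | x < X ∧ ∃ k : ℕ, (k : ℝ) ≤ 2 * Real.logb 2 X ∧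
        η * Real.log X ≤ |(({i : ℕ | i < k ∧ ∀ j : Fin h,
          (Odd ((fun m : ℕ => 3 * m / 2 + 1)^[i + j] x) ↔ w j = true)}.ncard : ℝ)) -
            k / 2 ^ h|}.ncard : ℝ)) ≤ (X : ℝ) ^ (1 - δ) :=
  Pool.Agent.P.MP_fc15d7_nt.HP.two h w η hη

end Pool.Agent.Results.MP_fc15d7_nt.HorizonPower
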