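import Pool.Agent.P.MP_fc15d7_nt.SqC

/-! The parity word of an orbit of `n ↦ ⌊3 n / 2⌋ + 1` disagrees with each of its shifts at least
`(log k) ^ 2 / 600` times among the first `k` places. -/

namespace Pool.Agent.Results.MP_fc15d7_nt.LogSquared

theorem result (x : ℕ) : ∀ᶠ k : ℕ in Filter.atTop, ∀ a : ℕ, 0 < a → a ^ 2 ≤ k →
    Real.log k ^ 2 / 600 ≤ (((Finset.range k).filter fun i : ℕ =>
      (fun m : ℕ => 3 * m / 2 + 1)^[i + a] x % 2 ≠ (fun m : ℕ => 3 * m / 2 + 1)^[i] x % 2).card : ℝ) :=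
  Pool.Agent.P.MP_fc15d7_nt.Sq.final x

end Pool.Agent.Results.MP_fc15d7_nt.LogSquared
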